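import Pool.Agent.H.MP_1611f1_gt.PB.Fin

/-! MP_1611f1_gt: taut foliations in all surgeries with slopes in (0, 2g - 1) along positive braid
knots. -/

namespace Pool.Agent.Results.MP_1611f1_gt.PositiveBraids

open Topology Set Pool.Agent.H.MP_1611f1_gt Pool.Agent.H.MP_1611f1_gt.PB

universe u v

/-- **Positive braid knots: all slopes in `(0, 2 g - 1)`.** Let `β` be a positive braid word whose closure
is a knot, with `k` strands and `c ≥ k` letters (the closure has the genus `g` with
`2 g - 1 = c - k`; it is not the unknot). (1) `β` can be changed by braid relations, far commutations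
and cyclic shifts into a word whose last two letters are equal. (2) If the last two letters of `β` are
equal, let `S` be a surface with the arc system (cocores of the `c` bands) of the fibre surface of the
closed braid, and `phi` the product of the maps `h m` of the bricks `(m, m')`, in the order of the
fibration: each `h m` preserves all cocore strips but those of the bands `m`, `m'`, and is the identity
on the collar of the end; for example an arbitrary power of the Dehn twist along the core of the
brick. Then every Dehn filling of the mapping torus of `phi` whose slope `- ga / de` is in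
`(0, c - k)` has a co-oriented taut foliation. If all `h m` are single right-handed twists, the mapping
torus is the exterior of the closed braid `K`, and the filling is the surgery `S^3_r(K)`,
`r = - ga / de`. (3) The surface with the arc system exists (as the interior of a compact surface), and
annuli `a m` around the cores of the bricks, such that for all exponents `e` the `e m`-th powers of the
Dehn twists along the annuli `a m` satisfy the hypotheses of (2); the Dehn fillings exist and are
compact Hausdorff spaces. -/
theorem result (k c : ℕ) [NeZero c] (β : Fin c → ℕ) (hβ : Knot k β) (hc : k ≤ c) :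
    (∃ β' : Fin c → ℕ,
      Conjugate (List.ofFn β) (List.ofFn β') ∧ Knot k β' ∧ EndsInSquare β') ∧
    (EndsInSquare β →
      (∀ (S : Type u) [TopologicalSpace S] [ConnectedSpace S] (Y : Type v) [TopologicalSpace Y]
        (E : Surf S Unit) (A : Bands E k β) (H : Bricks A) (al be ga de : ℤ),
        al * de - be * ga = 1 → 0 < -(ga : ℝ) / de → -(ga : ℝ) / de < c - k →
        Nonempty (Filling E H.phi (fun _ => al) (fun _ => be) (fun _ => ga) (fun _ => de) Y) →
        ∃ F : Foliation Y, F.Taut) ∧
      ∃ (S : Type) (_ : TopologicalSpace S) (_ : ConnectedSpace S) (E : Surf S Unit)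
        (A : Bands E k β) (a : Fin c → AddCircle (1 : ℝ) × Icc (-1 : ℝ) 1 → S),
        CompactType E ∧ (∀ m m', Brick β m m' → IsCore A m m' (a m)) ∧
        ∀ e : Fin c → ℤ, ∃ H : Bricks A, (∀ m m', Brick β m m' → IsTwist (a m) (e m) (H.h m)) ∧
          ∀ al be ga de : ℤ, al * de - be * ga = 1 → ∃ (Y : Type) (_ : TopologicalSpace Y),
            T2Space Y ∧ CompactSpace Y ∧
            Nonempty (Filling E H.phi (fun _ => al) (fun _ => be) (fun _ => ga) (fun _ => de) Y)) :=
  ⟨final.{u, v}.1 k c β hβ hc, final.{u, v}.2 k c β hβ⟩

end Pool.Agent.Results.MP_1611f1_gt.PositiveBraids
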