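import Pool.Agent.H.MP_1611f1_gt.HT.Main

/-!
Taut foliations in manifolds glued from products with the circle minus the curves of tree plumbings in fibres,
surface bundles minus level curves, and foliated manifolds.
-/

namespace Pool.Agent.Results.MP_1611f1_gt.TreePlumbings

open Pool.Agent.H.MP_1611f1_gt Pool.Agent.H.MP_1611f1_gt.HT
open Pool.Agent.H.MP_1611f1_gt.G (Ended Pattern Union)

/-- Let `Y` be obtained from good pieces `M v` by gluing and filling their toral ends. Suppose
that the covectors `(x e, y e)` at the ends are admissible for the pieces (`Good`), that the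
gluing matrices carry them into one another, and that at the filled ends they are multiples of
the covector of the meridian discs. Then `Y` has a co-oriented taut foliation. -/
theorem result {V : Type} {M : V → Type} [∀ v, TopologicalSpace (M v)] {J : V → Type}
    (T : ∀ v, Ended (M v) (J v)) (G : Pattern (Σ v, J v)) {Y : Type} [TopologicalSpace Y]
    (U : Union T G Y) (x y : (Σ v, J v) → ℝ)
    (hgood : ∀ v, Good (T v) (fun j => x ⟨v, j⟩) (fun j => y ⟨v, j⟩))
    (hglue : ∀ e, G.τ e ≠ e → x e = G.al e * x (G.τ e) + G.ga e * y (G.τ e) ∧
      y e = G.be e * x (G.τ e) + G.de e * y (G.τ e))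
    (hfill : ∀ e, G.τ e = e → ∃ c : ℝ, c ≠ 0 ∧ x e = c * G.ga e ∧ y e = c * G.de e) :
    ∃ F : Foliation Y, F.Taut :=
  main T G U x y hgood hglue hfill

end Pool.Agent.Results.MP_1611f1_gt.TreePlumbings
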